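import Pool.Agent.Lib.MP_c052b4_al.RY.MainR
import Pool.Agent.Lib.MP_c052b4_al.Mg.G081

/-!
# Groups acting on trees with a condition on the rays
-/

set_option autoImplicit false
set_option linter.unusedSectionVars false

namespace Pool.Agent.Lib.MP_c052b4_al

open Matrix MulAction

universe u v w w'

/-- The smallest class of groups which contains the regular coherent groups and is closed under
subgroups, directed unions and tree actions (without inversions) with vertex stabilizers in the
class and regular coherent edge stabilizers. -/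
inductive DCl : ∀ (G : Type v) [Group G], Prop
  | coh (G : Type v) [Group G] : RegCohGroup.{u} G → DCl G
  | sub (G H : Type v) [Group G] [Group H] (f : H →* G) : Function.Injective f → DCl G → DCl H
  | union (G : Type v) [Group G] (S : Set (Subgroup G)) : S.Nonempty → DirectedOn (· ≤ ·) S →
      (∀ g : G, ∃ H ∈ S, g ∈ H) → (∀ H ∈ S, DCl H) → DCl G
  | tree (G : Type v) [Group G] (V : Type v) [MulAction G V] (T : TreeAction G V) :
      (∀ v : V, DCl (stabilizer G v)) →
      (∀ x y : V, T.graph.Adj x y →
        RegCohGroup.{u} ↥(stabilizer G x ⊓ stabilizer G y)) → DCl G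

theorem DCl.hered {G : Type v} [Group G] (h : DCl.{u} G) : ∀ (H : Type v) [Group H] (f : H →* G),
    Function.Injective f → HD.{u} H := by
  induction h with
  | coh G hG =>
    intro H _ f hf R _ hR
    exact (hG.of_injective f hf R hR).dpr
  | sub G G' g hg _ ih =>
    intro H _ f hf
    exact ih H (g.comp f) (hg.comp hf)
  | union G S hS hdir hcov _ ih =>
    intro H _ f hf
    have hd : DirectedOn (· ≤ ·) ((fun A : Subgroup G => A.comap f) '' S) := by
      rintro _ ⟨A, hA, rfl⟩ _ ⟨B, hB, rfl⟩
      obtain ⟨C, hC, h1, h2⟩ := hdir A hA B hB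
      exact ⟨_, ⟨C, hC, rfl⟩, Subgroup.comap_mono h1, Subgroup.comap_mono h2⟩
    have hc : ∀ g : H, ∃ A ∈ ((fun A : Subgroup G => A.comap f) '' S), g ∈ A := by
      intro g
      obtain ⟨A, hA, hg⟩ := hcov (f g)
      exact ⟨_, ⟨A, hA, rfl⟩, hg⟩
    have key : ∀ B ∈ ((fun A : Subgroup G => A.comap f) '' S), HD.{u} B := by
      rintro _ ⟨A, hA, rfl⟩
      exact ih A hA _ (subMap f (A.comap f) A fun x hx => hx) (subMap_injective f hf _ _ _)
    exact fun R _ hR => dpr_of_directed _ (hS.image _) hd hc fun B hB => key B hB R hR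
  | tree G V T _ he ih =>
    intro H _ f hf
    let _ : MulAction H V := MulAction.compHom V f
    let T' : TreeAction H V := T.comp f
    have hv : ∀ v : V, HD.{u} (stabilizer H v) := fun v =>
      ih v _ (subMap f (stabilizer H v) (stabilizer G v) fun x hx => hx)
        (subMap_injective f hf _ _ _)
    have he2 : ∀ x y : V, T'.graph.Adj x y →
        RegCohGroup.{u} ↥(stabilizer H x ⊓ stabilizer H y) := fun x y hxy =>
      (he x y hxy).of_injective (subMap f _ (stabilizer G x ⊓ stabilizer G y)
        fun x hx => hx) (subMap_injective f hf _ _ _)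
    exact hd_of_tree T' hv he2

theorem DCl.hd {G : Type v} [Group G] (h : DCl.{u} G) : HD.{u} G :=
  h.hered G (MonoidHom.id G) Function.injective_id

theorem DCl.mono {G : Type v} [Group G] (H H' : Subgroup G) (hH : H' ≤ H) (h : DCl.{u} H) :
    DCl.{u} H' := DCl.sub _ _ (Subgroup.inclusion hH) (Subgroup.inclusion_injective hH) h

/-- Every ray has an initial segment whose pointwise stabilizer lies in the class `DCl`. -/
def RayCond {G : Type v} [Group G] {V : Type w} [MulAction G V] (T : TreeAction G V) : Prop :=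
  ∀ ρ : ℕ → V, (∀ n, T.graph.Adj (ρ n) (ρ (n + 1))) → (∀ n, ρ (n + 2) ≠ ρ n) →
    ∃ n : ℕ, DCl.{u} ↥(⨅ i : Fin (n + 1), stabilizer G (ρ i))

theorem rayCond_of_edges {G : Type v} [Group G] {V : Type w} [MulAction G V] (T : TreeAction G V)
    (h : ∀ x y : V, T.graph.Adj x y → DCl.{u} ↥(stabilizer G x ⊓ stabilizer G y)) :
    RayCond.{u} T := by
  intro ρ hρ _
  refine ⟨1, DCl.mono _ _ ?_ (h _ _ (hρ 0))⟩
  exact le_inf (iInf_le (fun i : Fin 2 => stabilizer G (ρ i)) 0)
    (iInf_le (fun i : Fin 2 => stabilizer G (ρ i)) 1)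

section Trees

variable {G : Type v} [Group G] {V : Type w} [MulAction G V] (T : TreeAction G V)

theorem hk_of_tree_ray (hray : RayCond.{u} T) (hv : ∀ v : V, HK.{u} (stabilizer G v))
    (he : ∀ x y : V, T.graph.Adj x y → ∀ (R : Type u) [Ring R], IsRegularRing R →
      KSurj R ↥(stabilizer G x ⊓ stabilizer G y)) : HK.{u} G := by
  intro R _ hR
  refine imA1_of_otree_ray T.otree (fun v => hv v R hR) (fun e => ?_)
    (P := fun H => DCl.{u} H) (fun H H' hH h => DCl.mono H H' hH h) (fun H h => h.hd R hR) ?_
  · rw [T.stabilizer_edge]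
    exact he _ _ e.adj R hR
  · intro x hx
    have h1 : ∀ n, T.otree.org (x (n + 1)) = (T.otree.dd (x n)).1.2 := by
      intro n
      rw [OTree.org_eq]
      exact (hx n).1
    obtain ⟨n, hn⟩ := hray (fun n => T.otree.org (x n)) (fun n => by
      rw [h1, OTree.org_eq]
      exact (T.otree.dd (x n)).2) (fun n => by
      rw [h1, OTree.org_eq]
      exact (hx n).2)
    refine ⟨n, DCl.mono _ _ ?_ hn⟩
    unfold fixG
    refine iInf_mono fun i => ?_
    intro g hg
    rw [mem_stabilizer_iff] at hg ⊢
    rw [← OTree.org_smul, hg]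

end Trees

/-- The smallest class of groups which contains the trivial groups and is closed under subgroups,
directed unions and tree actions (without inversions) with vertex stabilizers in the class such that
every ray has an initial segment whose pointwise stabilizer lies in `DCl`. -/
inductive TCl : ∀ (G : Type v) [Group G], Prop
  | triv (G : Type v) [Group G] [Subsingleton G] : TCl G
  | sub (G H : Type v) [Group G] [Group H] (f : H →* G) : Function.Injective f → TCl G → TCl H
  | union (G : Type v) [Group G] (S : Set (Subgroup G)) : S.Nonempty → DirectedOn (· ≤ ·) S →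
      (∀ g : G, ∃ H ∈ S, g ∈ H) → (∀ H ∈ S, TCl H) → TCl G
  | tree (G : Type v) [Group G] (V : Type v) [MulAction G V] (T : TreeAction G V) :
      (∀ v : V, TCl (stabilizer G v)) → RayCond.{u} T → TCl G

/-- All subgroups of groups in the class satisfy `HK`. -/
theorem TCl.hered {G : Type v} [Group G] (h : TCl.{u} G) : ∀ (H : Type v) [Group H] (f : H →* G),
    Function.Injective f → HK.{u} H := by
  induction h with
  | triv G =>
    intro H _ f hf
    have : Subsingleton H := hf.subsingleton
    exact fun R _ hR => imA1_of_subsingleton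
  | sub G G' g hg _ ih =>
    intro H _ f hf
    exact ih H (g.comp f) (hg.comp hf)
  | union G S hS hdir hcov _ ih =>
    intro H _ f hf
    have hd : DirectedOn (· ≤ ·) ((fun A : Subgroup G => A.comap f) '' S) := by
      rintro _ ⟨A, hA, rfl⟩ _ ⟨B, hB, rfl⟩
      obtain ⟨C, hC, h1, h2⟩ := hdir A hA B hB
      exact ⟨_, ⟨C, hC, rfl⟩, Subgroup.comap_mono h1, Subgroup.comap_mono h2⟩
    have hc : ∀ g : H, ∃ A ∈ ((fun A : Subgroup G => A.comap f) '' S), g ∈ A := by
      intro g
      obtain ⟨A, hA, hg⟩ := hcov (f g)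
      exact ⟨_, ⟨A, hA, rfl⟩, hg⟩
    have key : ∀ B ∈ ((fun A : Subgroup G => A.comap f) '' S), HK.{u} B := by
      rintro _ ⟨A, hA, rfl⟩
      exact ih A hA _ (subMap f (A.comap f) A fun x hx => hx) (subMap_injective f hf _ _ _)
    exact fun R _ hR => imA1_of_directed _ (hS.image _) hd hc fun B hB => key B hB R hR
  | tree G V T _ hray ih =>
    intro H _ f hf
    let _ : MulAction H V := MulAction.compHom V f
    let T' : TreeAction H V := T.comp f
    have hv : ∀ v : V, HK.{u} (stabilizer H v) := fun v =>
      ih v _ (subMap f (stabilizer H v) (stabilizer G v) fun x hx => hx)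
        (subMap_injective f hf _ _ _)
    have he1 : ∀ x y : V, T'.graph.Adj x y → HK.{u} ↥(stabilizer H x ⊓ stabilizer H y) :=
      fun x y _ => ih x _ (subMap f (stabilizer H x ⊓ stabilizer H y) (stabilizer G x)
        fun x hx => hx.1) (subMap_injective f hf _ _ _)
    refine hk_of_tree_ray T' ?_ hv fun x y hxy R _ hR => (he1 x y hxy).kSurj hR
    intro ρ h1 h2
    obtain ⟨n, hn⟩ := hray ρ h1 h2
    refine ⟨n, DCl.sub _ _ (subMap f _ (⨅ i : Fin (n + 1), stabilizer G (ρ i)) fun x hx => ?_)
      (subMap_injective f hf _ _ _) hn⟩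
    rw [Subgroup.mem_iInf] at hx ⊢
    exact hx

theorem TCl.hk {G : Type v} [Group G] (h : TCl.{u} G) : HK.{u} G :=
  h.hered G (MonoidHom.id G) Function.injective_id

end Pool.Agent.Lib.MP_c052b4_al
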