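import Pool.Agent.Lib.MP_c052b4_al.Mg.G070
import Pool.Agent.Lib.MP_c052b4_al.Mg.G078

/-!
# `A₁` is onto for groups acting on trees, with a condition on the rays
-/

set_option autoImplicit false
set_option linter.unusedSectionVars false

namespace Pool.Agent.Lib.MP_c052b4_al

open Matrix MulAction

universe u v w w'

section Main

variable {R : Type u} [Ring R] {G : Type v} [Group G] {V : Type w} {E : Type w'}
    [MulAction G V] [MulAction G E] (O : OTree G V E)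

include O in
/-- **`A₁` is onto for groups acting on trees.** -/
theorem imA1_of_otree_ray (hV : ∀ v : V, imA1 R (MulAction.stabilizer G v) = ⊤)
    (hE : ∀ e : E, KSurj R (MulAction.stabilizer G e)) {P : Subgroup G → Prop}
    (hmono : ∀ H H' : Subgroup G, H' ≤ H → P H → P H')
    (hD : ∀ H : Subgroup G, P H → DPr (MonoidAlgebra R H))
    (hray : ∀ x : ℕ → E ⊕ E, (∀ n, O.fol (x n) (x (n + 1))) → ∃ n, P (fixG G x n)) :
    imA1 R G = ⊤ := by
  classical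
  rw [eq_top_iff]
  intro x _
  obtain ⟨n, U, rfl⟩ := exists_k1 x
  obtain ⟨r⟩ : Nonempty V := O.tree.connected.nonempty
  obtain ⟨F, M, D, L, hDs, hDt, hL, hLe⟩ := exists_cdata O r U
  set A := MonoidAlgebra R G with hA
  obtain ⟨U1, hU1, hk1⟩ := D.exists_unit
  -- the nilpotent part
  have hnil : kk (-D.Nh) = 0 :=
    nil_ray hmono hD (CData.lD M.lE) D.Nh (fltPow (CData.lD M.lE) D.Nh D.isNilpotent_Nh
      fun k ξ ξ' x hx h => CData.unique_step (lE := M.lE) D.Nh D.sp_Nh k ξ ξ' x hx h)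
      O.fol (fun g x y => O.fol_smul g x y) D.sp_Nh hray
  rw [hnil, neg_zero] at hk1
  -- the vertex part
  set Pm : Matrix (M.ι ⊕ Fin n) M.κ A := fromRows (D.p * D.s - (1 - D.p) * D.t) D.B with hP
  set Θ : Matrix (M.ι ⊕ Fin n) M.κ A := fromRows (D.s - D.t) D.B with hΘ
  set Θ' : Matrix M.κ (M.ι ⊕ Fin n) A := fromCols D.ρ D.σ with hΘ'
  have hΘΘ' : Θ * Θ' = 1 := by
    rw [hΘ, hΘ', fromRows_mul_fromCols, D.e2, D.e3, D.e4, D.e5, fromBlocks_one]
  have hΘ'Θ : Θ' * Θ = 1 := by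
    rw [hΘ, hΘ', fromCols_mul_fromRows, D.e1]
  let U1m : Matrix (M.ι ⊕ Fin n) (M.ι ⊕ Fin n) A := U1
  let U1i : Matrix (M.ι ⊕ Fin n) (M.ι ⊕ Fin n) A :=
    ((U1⁻¹ : (Matrix (M.ι ⊕ Fin n) (M.ι ⊕ Fin n) A)ˣ) : Matrix (M.ι ⊕ Fin n) (M.ι ⊕ Fin n) A)
  have hmi : U1m * U1i = 1 := Units.mul_inv U1
  have him : U1i * U1m = 1 := Units.inv_mul U1
  have hU1' : U1m = Pm * Θ' := hU1
  have hPe : Pm = U1m * Θ := by
    rw [hU1', Matrix.mul_assoc, hΘ'Θ, Matrix.mul_one]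
  let C : Matrix M.κ (M.ι ⊕ Fin n) A := Θ' * U1i
  have hPC : Pm * C = 1 := by
    change Pm * (Θ' * U1i) = 1
    rw [← Matrix.mul_assoc, ← hU1', hmi]
  have hCP : C * Pm = 1 := by
    change Θ' * U1i * Pm = 1
    rw [hPe, Matrix.mul_assoc, ← Matrix.mul_assoc U1i, him, Matrix.one_mul, hΘ'Θ]
  let T : Matrix (M.ι ⊕ Fin n) M.κ R := fromRows (zc R M.s - zc R M.t) (zc R M.i0)
  let T' : Matrix M.κ (M.ι ⊕ Fin n) R := fromCols (zc R M.ρ) (zc R M.a)
  have hTT' : T * T' = 1 := by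
    change fromRows _ _ * fromCols _ _ = 1
    rw [fromRows_mul_fromCols, e2', e3', e4', e5', fromBlocks_one]
  have hT'T : T' * T = 1 := by
    change fromCols _ _ * fromRows _ _ = 1
    rw [fromCols_mul_fromRows, e1']
  have hT'A : T'.map (cG R G) = fromCols (zc A M.ρ) (zc A M.a) := by
    refine Matrix.ext fun i j => ?_
    rcases j with j | j
    · change cG R G ((M.ρ i j : ℤ) : R) = ((M.ρ i j : ℤ) : A)
      exact map_intCast _ _
    · change cG R G ((M.a i j : ℤ) : R) = ((M.a i j : ℤ) : A)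
      exact map_intCast _ _
  have hfin : ((U1 * L : (Matrix (M.ι ⊕ Fin n) (M.ι ⊕ Fin n) A)ˣ) :
      Matrix (M.ι ⊕ Fin n) (M.ι ⊕ Fin n) A) = Pm * T'.map (cG R G) := by
    change U1m * (L : Matrix (M.ι ⊕ Fin n) (M.ι ⊕ Fin n) A) = _
    rw [hT'A, hPe, Matrix.mul_assoc, ← hLe]
  have hmem := k1_vertex_mem M.lE M.lV O.o O.t O.o_smul O.t_smul r D.p D.p_mul_p D.hg_p
    (D.p * D.s - (1 - D.p) * D.t) D.B (by
      have h1 : D.p * (D.p * D.s - (1 - D.p) * D.t) = D.p * D.s := by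
        rw [Matrix.mul_sub, ← Matrix.mul_assoc, ← Matrix.mul_assoc, D.p_mul_p, D.p_mul_one_sub,
          Matrix.zero_mul, sub_zero]
      rw [h1]
      exact Hg.mul O.o_smul D.hg_p D.hs) (by
      have h1 : (1 - D.p) * (D.p * D.s - (1 - D.p) * D.t) = -((1 - D.p) * D.t) := by
        rw [Matrix.mul_sub, ← Matrix.mul_assoc, ← Matrix.mul_assoc, D.one_sub_mul_p,
          D.one_sub_idem', Matrix.zero_mul, zero_sub]
      rw [h1]
      exact (Hg.mul O.t_smul ((hg_one M.lE).sub D.hg_p) D.ht).neg) D.hB C hPC hCP T T' hTT' hT'T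
      (U1 * L) hfin hV hE
  rw [k1_mul, hk1, zero_add, hL] at hmem
  exact hmem

end Main

end Pool.Agent.Lib.MP_c052b4_al
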